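import Pool.Agent.Lib.MP_28303a_al.TW.Lemmas

/-! # EDG: making the idempotent constant -/

set_option autoImplicit false
set_option linter.unusedSectionVars false
set_option linter.unusedVariables false

namespace Pool.Agent.NegK.TW.H12

open Matrix MonoidAlgebra

universe u v w

section parts

variable {k : Type u} [Ring k] {Γ : Type u} [Group Γ]
variable {D D' D'' : Type u} [MulAction Γ D] [MulAction Γ D'] [MulAction Γ D'']
variable {J J' J'' : Type}

theorem assoc4 {R : Type u} [Semiring R] {I₁ I₂ I₃ I₄ I₅ : Type} [Fintype I₂] [Fintype I₃]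
    [Fintype I₄] (M : Matrix I₁ I₂ R) (N : Matrix I₂ I₃ R) (P : Matrix I₃ I₄ R)
    (Q : Matrix I₄ I₅ R) : M * N * (P * Q) = M * (N * P) * Q := by
  rw [Matrix.mul_assoc, ← Matrix.mul_assoc N, ← Matrix.mul_assoc M]

/-- Parts of products with a graded matrix on the left. -/
theorem part_mul_left [Fintype J] [DecidableEq J] [Fintype J'] {dg : J → D} {dg' : J' → D}
    {dg'' : J'' → D''}
    {R : D → D'' → Prop} (hR : Invar Γ R) {U : Matrix J J' (MonoidAlgebra k Γ)}
    (hU : Grd dg dg' U) (M : Matrix J' J'' (MonoidAlgebra k Γ)) :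
    part dg dg'' R (U * M) = U * part dg' dg'' R M := by
  refine ext_hom dg fun d x hx => ?_
  rw [vecMul_part hR _ hx, ← Matrix.vecMul_vecMul, ← Matrix.vecMul_vecMul,
    vecMul_part hR _ (hU.spt hx)]

/-- Parts of products with a graded matrix on the right. -/
theorem part_mul_right [Fintype J] [DecidableEq J] [Fintype J'] {dg : J → D} {dg' : J' → D'}
    {dg'' : J'' → D'} {R : D → D' → Prop} (hR : Invar Γ R) (M : Matrix J J' (MonoidAlgebra k Γ))
    {W : Matrix J' J'' (MonoidAlgebra k Γ)} (hW : Grd dg' dg'' W) :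
    part dg dg'' R (M * W) = part dg dg' R M * W := by
  refine ext_hom dg fun d x hx => ?_
  rw [vecMul_part hR _ hx, ← Matrix.vecMul_vecMul, ← Matrix.vecMul_vecMul,
    vecMul_part hR _ hx, hW.res_vecMul]

/-- The inverse of a graded matrix is graded. -/
theorem grd_inv [Fintype J] [DecidableEq J] {dg : J → D} {U W : Matrix J J (MonoidAlgebra k Γ)}
    (hU : Grd dg dg U) (h1 : U * W = 1) (h2 : W * U = 1) : Grd dg dg W := by
  have h3 : U * part dg dg (fun d d' => d = d') W = 1 := by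
    rw [← part_mul_left invar_eq hU, h1]
    exact Sup.part_eq (grd_one dg)
  have h4 : W = part dg dg (fun d d' => d = d') W := by
    calc W = W * (U * part dg dg (fun d d' => d = d') W) := by rw [h3, Matrix.mul_one]
      _ = _ := by rw [← Matrix.mul_assoc, h2, Matrix.one_mul]
  rw [h4]
  exact sup_part _ _ _ _

theorem part_blocks {J₁ J₂ J₃ J₄ : Type} {d₁ : J₁ → D} {d₂ : J₂ → D} {d₃ : J₃ → D'}
    {d₄ : J₄ → D'} {R : D → D' → Prop} (A : Matrix J₁ J₃ (MonoidAlgebra k Γ))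
    (B : Matrix J₁ J₄ (MonoidAlgebra k Γ)) (C : Matrix J₂ J₃ (MonoidAlgebra k Γ))
    (E : Matrix J₂ J₄ (MonoidAlgebra k Γ)) :
    part (Sum.elim d₁ d₂) (Sum.elim d₃ d₄) R (Matrix.fromBlocks A B C E) =
      Matrix.fromBlocks (part d₁ d₃ R A) (part d₁ d₄ R B) (part d₂ d₃ R C)
        (part d₂ d₄ R E) := by
  ext1 i j
  rcases i with i | i <;> rcases j with j | j <;> rfl

theorem part_zero {dg : J → D} {dg' : J' → D'} {R : D → D' → Prop} :
    part dg dg' R (0 : Matrix J J' (MonoidAlgebra k Γ)) = 0 := Sup.part_eq Sup.zero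

theorem part_eq_zero {dg : J → D} {dg' : J' → D'} {R R' : D → D' → Prop}
    {M : Matrix J J' (MonoidAlgebra k Γ)} (hM : Sup dg dg' R M) (h : ∀ d d', R d d' → ¬ R' d d') :
    part dg dg' R' M = 0 := by
  ext1 i j
  exact fil_eq_zero fun g hg => h _ _ (hM i j g hg)

theorem sup_one [DecidableEq J] {dg : J → D} {dg' : J → D'} {R : D → D' → Prop}
    (h : ∀ j, R (dg j) (dg' j)) : Sup dg dg' R (1 : Matrix J J (MonoidAlgebra k Γ)) := by
  intro i j g hg
  by_cases hij : i = j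
  · subst hij
    rw [Matrix.one_apply_eq, MonoidAlgebra.one_def] at hg
    rw [coeff_single_ne hg, one_smul]
    exact h i
  · rw [Matrix.one_apply_ne hij] at hg
    exact absurd rfl hg

end parts

/-- Adding an identity block. -/
abbrev blk (J' : Type) [DecidableEq J'] {R : Type u} [Semiring R] {J₁ J₂ : Type}
    (M : Matrix J₁ J₂ R) : Matrix (J₁ ⊕ J') (J₂ ⊕ J') R := fromBlocks M 0 0 1

/-- Adding a partial identity block. -/
abbrev blq (Ja Jb : Type) [DecidableEq Ja] [DecidableEq Jb] {R : Type u} [Semiring R]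
    {J₁ J₂ : Type} (M : Matrix J₁ J₂ R) : Matrix (J₁ ⊕ (Ja ⊕ Jb)) (J₂ ⊕ (Ja ⊕ Jb)) R :=
  fromBlocks M 0 0 (fromBlocks 1 0 0 0)

/-- The rearrangement of the indices. -/
def sig (JE JF J' : Type) : (JE ⊕ J') ⊕ JF ≃ (JE ⊕ JF) ⊕ J' where
  toFun := Sum.elim (Sum.elim (fun e => Sum.inl (Sum.inl e)) (fun j => Sum.inr j))
    (fun f => Sum.inl (Sum.inr f))
  invFun := Sum.elim (Sum.elim (fun e => Sum.inl (Sum.inl e)) (fun f => Sum.inr f))
    (fun j => Sum.inl (Sum.inr j))
  left_inv := by rintro ((e | j) | f) <;> rfl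
  right_inv := by rintro ((e | f) | j) <;> rfl

section core

variable {k Γ V E : Type u} [Ring k] [Group Γ] [MulAction Γ V] [MulAction Γ E]
  (T : OTree Γ V E) {JE JF JX Ja Jb : Type} [Fintype JE] [DecidableEq JE] [Fintype JF]
  [DecidableEq JF] [Fintype JX] [DecidableEq JX] [Fintype Ja] [DecidableEq Ja] [Fintype Jb]
  [DecidableEq Jb] {dE : JE → E} {dF : JF → V} {dX : JX → V} (da : Ja → E) (db : Jb → E)
  {δ : Matrix JE JX (MonoidAlgebra k Γ)} {w : Matrix JF JX (MonoidAlgebra k Γ)}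
  {q : Matrix JX JE (MonoidAlgebra k Γ)} {r : Matrix JX JF (MonoidAlgebra k Γ)}
  (hT : TLin T dE dF dX δ w q r)
  {U W : Matrix (JE ⊕ (Ja ⊕ Jb)) (JE ⊕ (Ja ⊕ Jb)) (MonoidAlgebra k Γ)}
  (hU : Grd (Sum.elim dE (Sum.elim da db)) (Sum.elim dE (Sum.elim da db)) U)
  (hUW : U * W = 1) (hWU : W * U = 1)

theorem o_ne_t (e : E) : T.o e ≠ T.t e := fun h => T.o_notMem e (by rw [h]; exact T.t_mem e)

theorem invar_t : Invar Γ (fun (e : E) (v : V) => v = T.t e) := fun g d d' h => by
  show g • d' = T.t (g • d)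
  rw [T.t_smul]
  exact congrArg (fun x => g • x) h

include hT hU hUW hWU

theorem tlin_new : TLin T (Sum.elim dE (Sum.elim da db)) dF
    (Sum.elim dX (Sum.elim (fun j => T.t (da j)) (fun j => T.o (db j))))
    (U * blk (Ja ⊕ Jb) δ)
    (fromCols w (0 : Matrix JF (Ja ⊕ Jb) (MonoidAlgebra k Γ)))
    (blk (Ja ⊕ Jb) q * W)
    (fromRows r (0 : Matrix (Ja ⊕ Jb) JF (MonoidAlgebra k Γ))) := by
  have h1 : (blk (Ja ⊕ Jb) δ) *
      blk (Ja ⊕ Jb) q = 1 := by
    rw [Matrix.fromBlocks_multiply, hT.δq, ← Matrix.fromBlocks_one]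
    simp
  refine ⟨?_, ?_, ?_, ?_, ?_, ?_, ?_⟩
  · have hinv : Invar Γ (fun (e : E) (v : V) => v = T.o e ∨ v = T.t e) := by
      rintro g d d' (h | h)
      · left; rw [T.o_smul, h]
      · right; rw [T.t_smul, h]
    refine Sup.mul hinv (fun a b c h h' => h ▸ h') hU ?_
    refine Sup.fromBlocks hT.sδ Sup.zero Sup.zero (sup_one ?_)
    rintro (j | j)
    · exact Or.inr rfl
    · exact Or.inl rfl
  · rintro i (j | j) g hg
    · exact hT.sw i j g hg
    · exact absurd rfl hg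
  · rw [assoc4, h1, Matrix.mul_one, hUW]
  · rw [Matrix.mul_assoc, Matrix.fromBlocks_mul_fromRows, hT.δr]
    simp
  · rw [← Matrix.mul_assoc, Matrix.fromCols_mul_fromBlocks, hT.wq]
    simp
  · rw [Matrix.fromCols_mul_fromRows, hT.wr]
    simp
  · rw [assoc4, hWU, Matrix.mul_one,
      Matrix.fromBlocks_multiply, Matrix.fromRows_mul_fromCols, Matrix.fromBlocks_add]
    simp [hT.qδ]

theorem pE_new : T.pE (Sum.elim dE (Sum.elim da db))
    (Sum.elim dX (Sum.elim (fun j => T.t (da j)) (fun j => T.o (db j))))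
    (U * blk (Ja ⊕ Jb) δ)
    (blk (Ja ⊕ Jb) q * W) =
    U * blq Ja Jb (T.pE dE dX δ q) * W := by
  have hW := grd_inv hU hUW hWU
  have h1 : T.dT (Sum.elim dE (Sum.elim da db))
      (Sum.elim dX (Sum.elim (fun j => T.t (da j)) (fun j => T.o (db j))))
      (U * blk (Ja ⊕ Jb) δ) =
      U * blq Ja Jb (T.dT dE dX δ) := by
    unfold OTree.dT
    rw [part_mul_left (invar_t T) hU, part_blocks, part_zero, part_zero, ← Matrix.fromBlocks_one,
      part_blocks, part_zero, part_zero]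
    congr 3
    · exact Sup.part_eq (sup_one fun j => rfl)
    · exact part_eq_zero (R := fun (e : E) (v : V) => v = T.o e) (sup_one fun j => rfl)
        fun d d' h h' => o_ne_t T d (h.symm.trans h')
  have h2 : blq Ja Jb (T.dT dE dX δ) * blk (Ja ⊕ Jb) q = blq Ja Jb (T.dT dE dX δ * q) := by
    rw [Matrix.fromBlocks_multiply]
    simp
  unfold OTree.pE
  rw [h1, assoc4, h2, part_mul_right invar_eq _ hW, part_mul_left invar_eq hU, part_blocks,
    part_zero, part_zero]
  congr 3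
  refine Sup.part_eq ?_
  exact Sup.fromBlocks (grd_one da) Sup.zero Sup.zero Sup.zero

end core

/-- EDG. -/
theorem edg (hHT : HtStatement.{u}) (hGRID : GridStatement.{u}) (hGR : GrStatement.{u}) :
    EdgStatement.{u} := by
  intro S k Γ V E _ _ _ _ T hN JE JF JX _ _ _ _ _ _ dE dF dX δ w q r hT C C' hC hC'
  obtain ⟨hπ, -⟩ := hHT (LaurentPolynomial k) Γ V E T JE JF JX dE dF dX δ w q r hT
  have hgr : Grd dE dE (T.pE dE dX δ q) := sup_part _ _ _ _
  obtain ⟨Ja, Jb, _, _, _, _, da, db, e₀, U, W, hU, hUW, hWU, he⟩ :=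
    hGRID k Γ E JE dE (fun j => hN _) _ hπ hgr
  let σ := sig JE JF (Ja ⊕ Jb)
  refine ⟨JE ⊕ (Ja ⊕ Jb), JX ⊕ (Ja ⊕ Jb), inferInstance, inferInstance, inferInstance,
    inferInstance, Sum.elim dE (Sum.elim da db),
    Sum.elim dX (Sum.elim (fun j => T.t (da j)) (fun j => T.o (db j))),
    U * blk (Ja ⊕ Jb) δ, fromCols w 0, blk (Ja ⊕ Jb) q * W, fromRows r 0,
    (blk (Ja ⊕ Jb) C).submatrix id σ, (blk (Ja ⊕ Jb) C').submatrix σ id, e₀,
    tlin_new T da db hT hU hUW hWU, ?_, ?_, ?_, ?_⟩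
  · rw [Matrix.submatrix_mul_equiv, Matrix.fromBlocks_multiply, hC]
    simp
  · have h1 : (blk (Ja ⊕ Jb) C').submatrix σ id * (blk (Ja ⊕ Jb) C).submatrix id σ =
        (blk (Ja ⊕ Jb) C' * blk (Ja ⊕ Jb) C).submatrix σ σ := by
      rw [Matrix.submatrix_mul _ _ _ id _ Function.bijective_id]
    rw [h1, Matrix.fromBlocks_multiply, hC']
    simp
  · rw [pE_new T da db hT hU hUW hWU, he]
  · -- the determinant
    have h1 : fromRows (U * blk (Ja ⊕ Jb) δ) (fromCols w 0) =
        blk JF U * (blk (Ja ⊕ Jb) (fromRows δ w)).submatrix σ id := by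
      have h2 : (blk (Ja ⊕ Jb) (fromRows δ w)).submatrix σ id =
          fromRows (blk (Ja ⊕ Jb) δ) (fromCols w 0) := by
        ext1 i j
        rcases i with (i | i) | i <;> rcases j with j | j <;> rfl
      rw [h2, Matrix.fromBlocks_mul_fromRows]
      simp
    have h3 : ((blk (Ja ⊕ Jb) C).submatrix id σ).map (cC k Γ) =
        (blk (Ja ⊕ Jb) (C.map (cC k Γ))).submatrix id σ := by
      rw [← Matrix.submatrix_map, Matrix.fromBlocks_map]
      simp
    have h4 : (blk (Ja ⊕ Jb) (fromRows δ w)).submatrix σ id *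
        (blk (Ja ⊕ Jb) (C.map (cC k Γ))).submatrix id σ =
        (blk (Ja ⊕ Jb) (fromRows δ w * C.map (cC k Γ))).submatrix σ σ := by
      rw [← Matrix.submatrix_mul _ _ _ id _ Function.bijective_id, Matrix.fromBlocks_multiply]
      simp
    have hA1 : fromRows δ w * fromCols q r = 1 := by
      rw [Matrix.fromRows_mul_fromCols, hT.δq, hT.δr, hT.wq, hT.wr, Matrix.fromBlocks_one]
    have hA2 : fromCols q r * fromRows δ w = 1 := by
      rw [Matrix.fromCols_mul_fromRows, hT.qδ]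
    have hB1 : C.map (cC k Γ) * C'.map (cC k Γ) = 1 := by
      rw [← Matrix.map_mul, hC, Matrix.map_one _ (map_zero _) (map_one _)]
    have hB2 : C'.map (cC k Γ) * C.map (cC k Γ) = 1 := by
      rw [← Matrix.map_mul, hC', Matrix.map_one _ (map_zero _) (map_one _)]
    have hunit : IsUnit (fromRows δ w * C.map (cC k Γ)) := by
      refine isUnit_of_mul (β := C'.map (cC k Γ) * fromCols q r) ?_ ?_
      · rw [Matrix.mul_assoc, ← Matrix.mul_assoc (C.map (cC k Γ)), hB1, Matrix.one_mul, hA1]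
      · rw [Matrix.mul_assoc, ← Matrix.mul_assoc (fromCols q r), hA2, Matrix.one_mul, hB2]
    have hUu : IsUnit U := isUnit_of_mul hUW hWU
    have hsub : IsUnit ((blk (Ja ⊕ Jb) (fromRows δ w * C.map (cC k Γ))).submatrix σ σ) := by
      obtain ⟨B, hb1, hb2⟩ := exists_inv (isUnit_blocks hunit
        (isUnit_one (M := Matrix (Ja ⊕ Jb) (Ja ⊕ Jb) (LG k Γ))))
      refine isUnit_of_mul (β := B.submatrix σ σ) ?_ ?_
      · rw [Matrix.submatrix_mul_equiv, hb1, Matrix.submatrix_one_equiv]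
      · rw [Matrix.submatrix_mul_equiv, hb2, Matrix.submatrix_one_equiv]
    rw [h1, h3, Matrix.mul_assoc, h4, (gdet S k Γ).mul _ _ (isUnit_blocks hUu isUnit_one) hsub,
      (gdet S k Γ).val_blocks_one hUu, (gdet S k Γ).reindex σ _ (isUnit_blocks hunit isUnit_one),
      (gdet S k Γ).val_blocks_one hunit, add_sub_cancel_right]
    have h5 := hGR S k Γ E _ _ U hUu hU
    exact (iSup_le fun j => le_iSup (fun e : E => img k (MulAction.stabilizer Γ e))
      (Sum.elim dE (Sum.elim da db) j)) h5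

end Pool.Agent.NegK.TW.H12
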