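import Pool.Agent.Lib.MP_28303a_al.TW.Graph
import Pool.Agent.Lib.MP_28303a_al.WR.H12.Preg
import Pool.Agent.Lib.MP_28303a_al.NK.H50.Rep
import Pool.Agent.Lib.MP_28303a_al.NK.Inj

/-! # POLYK: `K₀(R) → K₀(R[X])` is onto for regular rings -/

set_option autoImplicit false
set_option linter.unusedSectionVars false

namespace Pool.Agent.NegK.TW.H12

open Pool.Agent.NegK.WR.H12p Pool.Agent.NegK.WR.H12p.LP Pool.Agent.NegK.H50

universe u

section

variable {R : Type u} [Ring R]

theorem rep_ind {X : Type u} [AddCommGroup X] [Module R X] {x : Idem R} (h : Rep X x) :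
    Rep (WR.H12p.Ind X) (x.map (C : R →+* LP R)) := by
  obtain ⟨α, β, h1, h2⟩ := h
  let a0 : X →ₗ[R] (Fin x.n → LP R) :=
    { toFun := fun y i => C (α y i)
      map_add' := by
        intro y z
        funext i
        rw [map_add, Pi.add_apply, map_add]; rfl
      map_smul' := by
        intro s y
        funext i
        rw [map_smul, Pi.smul_apply, RingHom.id_apply, Pi.smul_apply, LP.smul_eq_C_mul,
          smul_eq_mul, map_mul] }
  let a : WR.H12p.Ind X →ₗ[LP R] (Fin x.n → LP R) := lift a0
  let b : (Fin x.n → LP R) →ₗ[LP R] WR.H12p.Ind X :=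
    Fintype.linearCombination (LP R) (fun i => sg 0 (β (Pi.single i 1)))
  have ha : ∀ y, a (sg 0 y) = fun i => C (α y i) := by
    intro y
    show lift a0 (sg 0 y) = _
    rw [lift_sg_zero]
    rfl
  have hb : ∀ v, b v = ∑ i, v i • sg 0 (β (Pi.single i 1)) := fun v =>
    Fintype.linearCombination_apply _ _ v
  have hba : b ∘ₗ a = LinearMap.id := by
    refine hom_ext fun y => ?_
    rw [LinearMap.comp_apply, ha, hb, LinearMap.id_apply]
    have h3 : ∀ i, (C (α y i) : LP R) • sg 0 (β (Pi.single i 1)) =
        sgHom R X (β (α y i • Pi.single i 1)) := by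
      intro i
      rw [C_smul, map_smul, map_smul]
      rfl
    rw [Finset.sum_congr rfl (fun i _ => h3 i), ← map_sum, ← map_sum]
    have h4 : ∑ i, α y i • (Pi.single i (1 : R) : Fin x.n → R) = α y := by
      funext j
      simp [Finset.sum_apply, Pi.single_apply]
    rw [h4]
    have h5 : β (α y) = y := LinearMap.congr_fun h1 y
    rw [h5]
    rfl
  have hab : a ∘ₗ b = Matrix.toLinearMapRight' (x.e.map (C : R →+* LP R)) := by
    refine LinearMap.pi_ext' fun i => LinearMap.ext_ring ?_
    rw [LinearMap.comp_apply, LinearMap.comp_apply, LinearMap.comp_apply,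
      LinearMap.single_apply, hb]
    have h3 : ∑ j, (Pi.single i (1 : LP R) : Fin x.n → LP R) j •
        (sg 0 (β (Pi.single j 1)) : WR.H12p.Ind X) = sg 0 (β (Pi.single i 1)) := by
      rw [Finset.sum_eq_single i]
      · rw [Pi.single_eq_same, one_smul]
      · intro j _ hj
        rw [Pi.single_eq_of_ne hj, zero_smul]
      · intro hi
        exact absurd (Finset.mem_univ i) hi
    rw [h3, ha, Matrix.toLinearMapRight'_apply]
    funext j
    have h4 : α (β (Pi.single i 1)) = Matrix.vecMul (Pi.single i 1) x.e :=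
      LinearMap.congr_fun h2 _
    rw [h4, Matrix.single_one_vecMul, Matrix.single_one_vecMul]
    rfl
  exact ⟨a, b, hba, hab⟩

/-- `R[t] ⊗ (X × Y) = (R[t] ⊗ X) × (R[t] ⊗ Y)`. -/
noncomputable def prodE {X Y : Type u} [AddCommGroup X] [Module R X] [AddCommGroup Y]
    [Module R Y] : WR.H12p.Ind (X × Y) ≃ₗ[LP R] WR.H12p.Ind X × WR.H12p.Ind Y :=
  LinearEquiv.ofLinearMap
    (LinearMap.prod (imap (LinearMap.fst R X Y)) (imap (LinearMap.snd R X Y)))
    (LinearMap.coprod (imap (LinearMap.inl R X Y)) (imap (LinearMap.inr R X Y)))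
    (by
      refine LinearMap.prod_ext (hom_ext fun x => ?_) (hom_ext fun y => ?_)
      · simp only [LinearMap.comp_apply, LinearMap.inl_apply, LinearMap.coprod_apply, imap_sg,
          map_zero, add_zero, LinearMap.prod_apply, Function.prod_apply, LinearMap.fst_apply,
          LinearMap.snd_apply, LinearMap.id_apply, sg_zero]
      · simp only [LinearMap.comp_apply, LinearMap.inr_apply, LinearMap.coprod_apply, imap_sg,
          map_zero, zero_add, LinearMap.prod_apply, Function.prod_apply, LinearMap.fst_apply,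
          LinearMap.snd_apply, LinearMap.id_apply, sg_zero])
    (by
      refine hom_ext fun z => ?_
      obtain ⟨x, y⟩ := z
      simp only [LinearMap.comp_apply, LinearMap.coprod_apply, imap_sg,
          LinearMap.prod_apply, Function.prod_apply, LinearMap.fst_apply,
          LinearMap.snd_apply, LinearMap.id_apply, LinearMap.inl_apply, LinearMap.inr_apply]
      rw [← sg_add, Prod.mk_add_mk, add_zero, zero_add])

/-- The Schanuel induction. -/
theorem schanuel_ind (n : ℕ) : ∀ (X Y : Type u) [AddCommGroup X] [Module R X]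
    [AddCommGroup Y] [Module R Y], HasFPRes R n X → HasFPRes R n Y →
    ∀ (P : Type u) [AddCommGroup P] [Module (LP R) P] (p : Idem (LP R)),
      Rep P p → Nonempty (WR.H12p.Ind Y ≃ₗ[LP R] WR.H12p.Ind X × P) →
      K0.cls p ∈ (K0.map (C : R →+* LP R)).range := by
  induction n with
  | zero =>
    intro X Y _ _ _ _ hX hY P _ _ p hp he
    obtain ⟨hX1, hX2⟩ := hX
    obtain ⟨hY1, hY2⟩ := hY
    obtain ⟨e⟩ := he
    obtain ⟨x, hx⟩ := exists_rep hX1 hX2
    obtain ⟨y, hy⟩ := exists_rep hY1 hY2
    have h1 := (rep_ind hy).cls_eq ((rep_ind hx).prod hp) e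
    rw [cls_sum] at h1
    refine ⟨K0.cls y - K0.cls x, ?_⟩
    rw [map_sub, K0.map_cls, K0.map_cls, h1, add_sub_cancel_left]
  | succ n ih =>
    intro X Y _ _ _ _ hX hY P _ _ p hp he
    obtain ⟨e⟩ := he
    obtain ⟨FX, _, _, f, hf1, hf2, hf3, hf4⟩ := hX
    obtain ⟨FY, _, _, g, hg1, hg2, hg3, hg4⟩ := hY
    obtain ⟨x, hx⟩ := exists_rep hf1 hf2
    obtain ⟨y, hy⟩ := exists_rep hg1 hg2
    have hPX : Module.Projective (LP R) (WR.H12p.Ind FX × P) :=
      ((rep_ind hx).prod hp).projective
    have hPY : Module.Projective (LP R) (WR.H12p.Ind FY) := (rep_ind hy).projective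
    let F : WR.H12p.Ind FX × P →ₗ[LP R] WR.H12p.Ind X × P := (imap f).prodMap LinearMap.id
    let K : WR.H12p.Ind FY →ₗ[LP R] WR.H12p.Ind X × P := e.toLinearMap ∘ₗ (imap g)
    have hF : Function.Surjective F := by
      rintro ⟨a, b⟩
      obtain ⟨c, rfl⟩ := imap_surjective f hf3 a
      exact ⟨(c, b), rfl⟩
    have hK : Function.Surjective K := e.surjective.comp (imap_surjective g hg3)
    obtain ⟨e1⟩ := schanuel hPX hPY F K hF hK
    -- `ker K × (Ind FX × P) ≃ ker F × Ind FY`
    have eK : LinearMap.ker K = LinearMap.ker (imap g) := LinearEquiv.ker_comp _ _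
    have eY := kerEquiv g
    have eX := kerEquiv f
    have eF : LinearMap.ker (imap f) ≃ₗ[LP R] LinearMap.ker F :=
      { toFun := fun z => ⟨((z : WR.H12p.Ind FX), 0), by
          have := z.2
          rw [LinearMap.mem_ker] at this ⊢
          exact Prod.ext this rfl⟩
        invFun := fun z => ⟨(z : WR.H12p.Ind FX × P).1, by
          have := z.2
          rw [LinearMap.mem_ker] at this ⊢
          exact congrArg Prod.fst this⟩
        map_add' := fun x y => Subtype.ext (Prod.ext rfl (add_zero (0 : P)).symm)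
        map_smul' := fun r x => Subtype.ext (Prod.ext rfl (smul_zero (A := P) r).symm)
        left_inv := fun x => rfl
        right_inv := fun x => by
          refine Subtype.ext (Prod.ext rfl ?_)
          have := x.2
          rw [LinearMap.mem_ker] at this
          exact (congrArg Prod.snd this).symm }
    -- the new data
    refine ih (LinearMap.ker g × FX) (LinearMap.ker f × FY) (hg4.prod hf1 hf2)
      (hf4.prod hg1 hg2) P p hp ⟨?_⟩
    have e2 : WR.H12p.Ind (LinearMap.ker f × FY) ≃ₗ[LP R]
        LinearMap.ker F × WR.H12p.Ind FY :=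
      prodE.trans (LinearEquiv.prodCongr (eX.trans eF) (LinearEquiv.refl _ _))
    have e3 : WR.H12p.Ind (LinearMap.ker g × FX) ≃ₗ[LP R]
        LinearMap.ker K × WR.H12p.Ind FX :=
      prodE.trans (LinearEquiv.prodCongr (eY.trans (LinearEquiv.ofEq _ _ eK.symm))
        (LinearEquiv.refl _ _))
    exact (e2.trans e1.symm).trans ((LinearEquiv.prodAssoc (LP R) _ _ _).symm.trans
      (LinearEquiv.prodCongr e3.symm (LinearEquiv.refl _ _)))

end

theorem surj_LP (R : Type u) [Ring R] (hR : RegularRing R) :
    Function.Surjective (K0.map (C : R →+* LP R)) := by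
  intro z
  have h : z ∈ (K0.map (C : R →+* LP R)).range := by
    refine K0_eq_top (fun p => ?_) z
    let P := LinearMap.range (Matrix.toLinearMapRight' p.e)
    have hp : Rep P p := rep_range p
    have := hR.1
    obtain ⟨M0, h1, h2, h3⟩ := exists_model (R := R) hR.1 hp.finite
    have : IsNoetherian R M0 := isNoetherian_of_fg_of_noetherian M0 h1
    have : IsNoetherian R (one M0) := isNoetherian_of_le inf_le_left
    obtain ⟨a, ha⟩ := hR.2 M0 inferInstance
    obtain ⟨b, hb⟩ := hR.2 (one M0) inferInstance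
    obtain ⟨e⟩ := exists_splitEquiv hp.projective (pr M0) h2
    refine schanuel_ind (max a b) (one M0) M0 (HasFPRes.mono (le_max_right _ _) hb)
      (HasFPRes.mono (le_max_left _ _) ha) P p hp ⟨e.trans (LinearEquiv.prodCongr
        ((LinearEquiv.ofInjective _ (dl_injective M0)).trans (LinearEquiv.ofEq _ _ h3)).symm
        (LinearEquiv.refl _ _))⟩
  exact h

/-- POLYK. -/
theorem polyk (_h : PregStatement.{u}) : PolykStatement.{u} := by
  intro R _ hR z
  let e : LP R ≃+* Polynomial R := (Polynomial.toFinsuppIso R).symm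
  have hC : ((e : LP R →+* Polynomial R)).comp (C : R →+* LP R) =
      (Polynomial.C : R →+* Polynomial R) := by
    refine RingHom.ext fun r => ?_
    rfl
  obtain ⟨y, hy⟩ := surj_LP R hR (K0.map (e.symm : Polynomial R →+* LP R) z)
  refine ⟨y, ?_⟩
  have h1 : (e : LP R →+* Polynomial R).comp (e.symm : Polynomial R →+* LP R) =
      RingHom.id _ := by
    refine RingHom.ext fun r => ?_
    exact e.apply_symm_apply r
  rw [← hC, ← K0.map_map, hy, K0.map_map, h1, K0.map_id]

end Pool.Agent.NegK.TW.H12
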