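import Pool.Agent.Lib.MP_28303a_al.TW.Graph

/-! # SUBT: finite subtrees -/

set_option autoImplicit false
set_option linter.unusedSectionVars false

namespace Pool.Agent.NegK.TW.H12

open Pool.Agent.NegK.TW Matrix

universe u

section

variable {Γ V E : Type u} [Group Γ] [MulAction Γ V] [MulAction Γ E] (T : OTree Γ V E) (b : V)

open Classical in
/-- The row of the edge `e`. -/
noncomputable def row (e : E) (w : V) : ℤ := (if w = T.t e then 1 else 0) - (if w = T.o e then 1 else 0)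

open Classical in
/-- Finite subtrees. -/
structure Good (V₀ : Finset V) (E₀ : Finset E) : Prop where
  hb : b ∈ V₀
  ends : ∀ e ∈ E₀, T.o e ∈ V₀ ∧ T.t e ∈ V₀
  card : V₀.card = E₀.card + 1
  sol : ∀ v ∈ V₀, ∃ n : E → ℤ, ∀ w : V,
    ∑ e ∈ E₀, n e * row T e w + (if w = b then 1 else 0) = if w = v then 1 else 0

theorem good_base : Good T b {b} ∅ := by
  classical
  refine ⟨Finset.mem_singleton_self b, fun e he => absurd he (Finset.notMem_empty e), ?_, ?_⟩
  · rw [Finset.card_singleton, Finset.card_empty]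
  · intro v hv
    rw [Finset.mem_singleton] at hv
    refine ⟨fun _ => 0, fun w => ?_⟩
    rw [Finset.sum_empty, zero_add, hv]

theorem good_step {V₀ : Finset V} {E₀ : Finset E} (h : Good T b V₀ E₀) {v w : V} (hv : v ∈ V₀)
    (hw : w ∉ V₀) {e : E} (he : (T.o e = v ∧ T.t e = w) ∨ (T.o e = w ∧ T.t e = v)) :
    ∃ (V₁ : Finset V) (E₁ : Finset E), Good T b V₁ E₁ ∧ V₀ ⊆ V₁ ∧ w ∈ V₁ := by
  classical
  have heE : e ∉ E₀ := by
    intro hc
    obtain ⟨h1, h2⟩ := h.ends e hc
    rcases he with ⟨h3, h4⟩ | ⟨h3, h4⟩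
    · rw [h4] at h2; exact hw h2
    · rw [h3] at h1; exact hw h1
  refine ⟨insert w V₀, insert e E₀, ⟨Finset.mem_insert_of_mem h.hb, ?_, ?_, ?_⟩,
    Finset.subset_insert _ _, Finset.mem_insert_self _ _⟩
  · intro e' he'
    rcases Finset.mem_insert.1 he' with rfl | he'
    · rcases he with ⟨h3, h4⟩ | ⟨h3, h4⟩
      · rw [h3, h4]
        exact ⟨Finset.mem_insert_of_mem hv, Finset.mem_insert_self _ _⟩
      · rw [h3, h4]
        exact ⟨Finset.mem_insert_self _ _, Finset.mem_insert_of_mem hv⟩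
    · obtain ⟨h1, h2⟩ := h.ends e' he'
      exact ⟨Finset.mem_insert_of_mem h1, Finset.mem_insert_of_mem h2⟩
  · rw [Finset.card_insert_of_notMem hw, Finset.card_insert_of_notMem heE, h.card]
  · -- solutions
    have key : ∀ (n : E → ℤ) (c : ℤ) (x : V), ∑ e' ∈ insert e E₀,
        (fun e' => if e' = e then c else n e') e' * row T e' x =
          c * row T e x + ∑ e' ∈ E₀, n e' * row T e' x := by
      intro n c x
      rw [Finset.sum_insert heE]
      congr 1
      · simp
      · refine Finset.sum_congr rfl fun e' he' => ?_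
        have : e' ≠ e := fun hc => heE (hc ▸ he')
        simp [this]
    intro x hx
    rcases Finset.mem_insert.1 hx with rfl | hx
    · obtain ⟨n, hn⟩ := h.sol v hv
      rcases he with ⟨h3, h4⟩ | ⟨h3, h4⟩
      · refine ⟨fun e' => if e' = e then 1 else n e', fun y => ?_⟩
        rw [key, add_assoc, hn]
        unfold row
        rw [h3, h4]
        ring
      · refine ⟨fun e' => if e' = e then -1 else n e', fun y => ?_⟩
        rw [key, add_assoc, hn]
        unfold row
        rw [h3, h4]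
        ring
    · obtain ⟨n, hn⟩ := h.sol x hx
      refine ⟨fun e' => if e' = e then 0 else n e', fun y => ?_⟩
      rw [key, zero_mul, zero_add, hn]

theorem good_walk {G : SimpleGraph V} (hT : T.Of G) {u x : V} (p : G.Walk u x) :
    ∀ (V₀ : Finset V) (E₀ : Finset E), Good T b V₀ E₀ → u ∈ V₀ →
      ∃ (V₁ : Finset V) (E₁ : Finset E), Good T b V₁ E₁ ∧ V₀ ⊆ V₁ ∧ x ∈ V₁ := by
  induction p with
  | nil => intro V₀ E₀ h hu; exact ⟨V₀, E₀, h, Finset.Subset.refl _, hu⟩
  | @cons u w x hadj p ih =>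
    intro V₀ E₀ h hu
    by_cases hw : w ∈ V₀
    · exact ih V₀ E₀ h hw
    · obtain ⟨V₁, E₁, h1, h2, h3⟩ : ∃ (V₁ : Finset V) (E₁ : Finset E), Good T b V₁ E₁ ∧
          V₀ ⊆ V₁ ∧ w ∈ V₁ := by
        rcases hT.surj u w hadj with ⟨e, he⟩ | ⟨e, he⟩
        · exact good_step T b h hu hw (Or.inl he)
        · exact good_step T b h hu hw (Or.inr he)
      obtain ⟨V₂, E₂, h4, h5, h6⟩ := ih V₁ E₁ h1 h3
      exact ⟨V₂, E₂, h4, h2.trans h5, h6⟩

theorem good_exists {G : SimpleGraph V} (hG : G.Connected) (hT : T.Of G) (F : Finset V) :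
    ∃ (V₀ : Finset V) (E₀ : Finset E), Good T b V₀ E₀ ∧ F ⊆ V₀ := by
  classical
  induction F using Finset.induction_on with
  | empty => exact ⟨_, _, good_base T b, Finset.empty_subset _⟩
  | insert x F hx ih =>
    obtain ⟨V₀, E₀, h1, h2⟩ := ih
    obtain ⟨p⟩ := hG.preconnected b x
    obtain ⟨V₁, E₁, h3, h4, h5⟩ := good_walk T b hT p V₀ E₀ h1 h1.hb
    exact ⟨V₁, E₁, h3, Finset.insert_subset h5 (h2.trans h4)⟩

end

/-- SUBT. -/
theorem subt : SubtStatement.{u} := by
  classical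
  intro Γ V E _ _ _ G T hG hT b F
  obtain ⟨V₀, E₀, h, hF⟩ := good_exists T b hG.1 hT F
  refine ⟨V₀, E₀, h.hb, hF, h.ends, ?_⟩
  choose n hn using fun v : V₀ => h.sol v.1 v.2
  let B : Matrix (E₀ ⊕ Unit) V₀ ℤ := Matrix.of fun i v =>
    Sum.elim (fun e : E₀ => row T e.1 v.1) (fun _ => if (v : V) = b then 1 else 0) i
  let N : Matrix V₀ (E₀ ⊕ Unit) ℤ := Matrix.of fun v i => Sum.elim (fun e : E₀ => n v e.1)
    (fun _ => 1) i
  have hNB : N * B = 1 := by
    ext v w
    rw [Matrix.mul_apply, Fintype.sum_sum_type]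
    have h1 : ∑ e : E₀, N v (Sum.inl e) * B (Sum.inl e) w =
        ∑ e ∈ E₀, n v e * row T e w.1 := by
      rw [← Finset.sum_coe_sort E₀ fun e => n v e * row T e w.1]
      rfl
    have h2 : ∑ i : Unit, N v (Sum.inr i) * B (Sum.inr i) w = if (w : V) = b then 1 else 0 := by
      rw [Fintype.sum_unique]
      exact one_mul _
    rw [h1, h2, hn v w.1, Matrix.one_apply]
    by_cases hvw : v = w
    · rw [if_pos hvw, if_pos (by rw [hvw])]
    · rw [if_neg hvw, if_neg (fun hc => hvw (Subtype.ext hc.symm))]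
  have hcard : Fintype.card V₀ = Fintype.card (E₀ ⊕ Unit) := by
    rw [Fintype.card_coe, Fintype.card_sum, Fintype.card_coe, Fintype.card_unit, h.card]
  refine ⟨B, N, (Matrix.mul_eq_one_comm_of_equiv (Fintype.equivOfCardEq hcard)).1 hNB, hNB,
    fun e v => rfl, fun v => rfl⟩

end Pool.Agent.NegK.TW.H12
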